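import Pool.Agent.KTB.StmtsKA

/-!
Squad KTB, row BRH: construction of `Rh`.
-/

set_option autoImplicit false

namespace Pool.Agent.KTB.H81

open Finset
open scoped Classical

theorem brh (hIDN : IdnStmt) (hRAY : RayStmt) (hCLO : CloStmt) : BrhStmt := by
  intro ι T _ D S R p f M t U π kk hBC hU
  obtain ⟨hRne, ⟨hRS, hRp, l₁, l₂, hl₁, hl₂, hl₁₂⟩, hLLR⟩ := hBC.vd
  obtain ⟨-, -, hI3, hI4, hI5⟩ := hIDN ι T D S
  -- a solution on which `f` does not vanish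
  obtain ⟨l₀, hl₀, hfl₀⟩ : ∃ l, D.Sol S l ∧ f l ≠ 0 := by
    by_cases h : f l₁ = 0
    · refine ⟨l₂, hl₂, ?_⟩
      intro h'
      exact hl₁₂ (by rw [h, h'])
    · exact ⟨l₁, hl₁, h⟩
  have huniq : ∀ c c' : ℚ, (∀ l, D.Sol S l → c * f l = c' * f l) → c = c' := by
    intro c c' h
    exact mul_right_cancel₀ hfl₀ (h l₀ hl₀)
  -- the class and its norms
  set Q : Finset ι := S.filter fun y => ∃ c : ℚ, 0 < c ∧ ∀ l, D.Sol S l → l y = c * f l with hQ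
  have hQmem : ∀ y, y ∈ Q ↔ y ∈ S ∧ ∃ c : ℚ, 0 < c ∧ ∀ l, D.Sol S l → l y = c * f l := by
    intro y
    rw [hQ, mem_filter]
  obtain ⟨q, hq⟩ : ∃ q : ι → ℚ, ∀ y ∈ Q, 0 < q y ∧ ∀ l, D.Sol S l → l y = q y * f l := by
    have h : ∀ y, ∃ c : ℚ, y ∈ Q → 0 < c ∧ ∀ l, D.Sol S l → l y = c * f l := by
      intro y
      by_cases hy : y ∈ Q
      · obtain ⟨c, hc⟩ := ((hQmem y).mp hy).2
        exact ⟨c, fun _ => hc⟩
      · exact ⟨0, fun h => absurd h hy⟩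
    choose q hq using h
    exact ⟨q, hq⟩
  have hQmax : ∀ y ∈ S, (∃ c : ℚ, 0 < c ∧ ∀ l, D.Sol S l → l y = c * f l) → y ∈ Q :=
    fun y hy hc => (hQmem y).mpr ⟨hy, hc⟩
  have hQS : Q ⊆ S := fun y hy => ((hQmem y).mp hy).1
  have hRQ : R ⊆ Q := fun r hr => hQmax r (hRS hr) ⟨p r, hRp r hr⟩
  have hUS : U ⊆ S := by
    intro u hu
    have := hBC.us hu
    unfold Dat.sp at this
    exact (mem_filter.mp this).1
  have hUQ : U ⊆ Q := fun u hu => hQmax u (hUS hu) (hU u hu)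
  have hpq : ∀ r ∈ R, q r = p r := by
    intro r hr
    apply huniq
    intro l hl
    rw [← (hq r (hRQ hr)).2 l hl, (hRp r hr).2 l hl]
  have hray : D.Ray S Q q f := ⟨hQS, hq, l₁, l₂, hl₁, hl₂, hl₁₂⟩
  have hQne : Q.Nonempty := hRne.mono hRQ
  obtain ⟨-, ⟨s, hs1, hs2, ⟨ρ₀, hρ₀, hsρ₀⟩, -⟩, -, -, -, -⟩ := hRAY ι T D S Q q f hray hQne
  have htQ : t ∈ Q := hRQ hBC.tR
  have hqt : 0 < q t := (hq t htQ).1
  have hQsp : Q ⊆ D.sp S t := by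
    intro y hy
    unfold Dat.sp
    rw [mem_filter]
    refine ⟨hQS hy, q y / q t, div_pos (hq y hy).1 hqt, ?_⟩
    intro ρ hρ
    rw [hs1 ρ hρ y hy, hs1 ρ hρ t htQ]
    field_simp
  have hρt : ρ₀ t ≠ 0 := by
    rw [hs1 ρ₀ hρ₀ t htQ]
    exact mul_ne_zero hqt.ne' hsρ₀
  have hdisj : ∀ W ∈ D.sm S t, W ∉ D.sp S t := by
    intro W hW hW'
    unfold Dat.sm at hW
    unfold Dat.sp at hW'
    obtain ⟨-, c, hc, h1⟩ := mem_filter.mp hW
    obtain ⟨-, c', hc', h2⟩ := mem_filter.mp hW'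
    have h3 := h1 ρ₀ hρ₀
    have h4 := h2 ρ₀ hρ₀
    have h5 : (c + c') * ρ₀ t = 0 := by linear_combination h3 - h4
    rcases mul_eq_zero.mp h5 with h6 | h6
    · linarith
    · exact hρt h6
  have hsmS : D.sm S t ⊆ S := by
    intro W hW
    unfold Dat.sm at hW
    exact (mem_filter.mp hW).1
  have hmaps : ∀ W ∈ D.sm S t, π W ∈ D.sp S t ∧ π W ∉ U := by
    intro W hW
    have h := hBC.bij.mapsTo (mem_coe.mpr hW)
    exact mem_sdiff.mp (mem_coe.mp h)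
  -- the sum of the two owners
  have hπS : ∀ W ∈ D.sm S t, π W ∈ S := fun W hW => (hBC.cln W hW).2.1
  have hπQ : ∀ W ∈ D.sm S t, ∀ c : ℚ, 0 < c → (∀ l, D.Sol S l → l W = 1 - c * f l) → π W ∈ Q := by
    intro W hW c hc h
    refine hQmax _ (hπS W hW) ⟨c, hc, ?_⟩
    intro l hl
    have h1 := (hI5 (kk W) W (π W) (hBC.cln W hW)).1 l hl
    have h2 := h l hl
    linarith
  set Wc : Finset ι := (D.sm S t).filter fun W => π W ∈ Q with hWc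
  have hWcm : ∀ W, W ∈ Wc ↔ W ∈ D.sm S t ∧ π W ∈ Q := by
    intro W
    rw [hWc, mem_filter]
  have hWcS : Wc ⊆ S := fun W hW => hsmS ((hWcm W).mp hW).1
  have hW1 : ∀ W ∈ Wc, W ∉ Q ∧ π W ∈ Q ∧ D.Clean S (kk W) W (π W) := by
    intro W hW
    obtain ⟨h1, h2⟩ := (hWcm W).mp hW
    exact ⟨fun h => hdisj W h1 (hQsp h), h2, hBC.cln W h1⟩
  have hinj : Set.InjOn π (Wc : Set ι) := by
    intro a ha b hb hab
    exact hBC.bij.injOn (mem_coe.mpr ((hWcm a).mp (mem_coe.mp ha)).1)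
      (mem_coe.mpr ((hWcm b).mp (mem_coe.mp hb)).1) hab
  have hYc : ∀ Y ∈ S, ∀ c : ℚ, 0 < c → (∀ l, D.Sol S l → l Y = 1 - c * f l) → Y ∈ Wc := by
    intro Y hY c hc h
    have hYs : Y ∈ D.sm S t := by
      unfold Dat.sm
      rw [mem_filter]
      refine ⟨hY, c / q t, div_pos hc hqt, ?_⟩
      intro ρ hρ
      have h1 := hI4 l₁ hl₁ ρ hρ
      have h2 := h (l₁ + ρ) h1
      have h3 := h l₁ hl₁
      have h4 := hs2 l₁ (l₁ + ρ) hl₁ h1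
      rw [add_sub_cancel_left] at h4
      rw [Pi.add_apply] at h2
      rw [hs1 ρ hρ t htQ]
      field_simp
      linear_combination h2 - h3 - c * h4
    exact (hWcm Y).mpr ⟨hYs, hπQ Y hYs c hc h⟩
  have hclo := fun (X₀ : Finset ι) (h1 : X₀ ⊆ Q)
    (h2 : ∀ W ∈ Wc, π W ∈ X₀ → ∃ j, j ≠ kk W ∧ D.Priv (S \ X₀) W j) =>
    hCLO ι T D S Q Wc X₀ q f π kk hBC.ll hray hWcS hW1 hinj hYc h1 h2
  -- the set `Rh`
  obtain ⟨Rh, hX1, hX2, hX3, -, -, hX6, -⟩ := hclo (R ∪ U) (union_subset hRQ hUQ) (by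
    intro W hW hπ
    obtain ⟨hWs, hWQ⟩ := (hWcm W).mp hW
    have hnU := (hmaps W hWs).2
    have hπR : π W ∈ R := by
      rcases mem_union.mp hπ with h | h
      · exact h
      · exact absurd h hnU
    obtain ⟨hc1, hc2, hc3, hc4, hc5, hc6⟩ := hBC.cln W hWs
    have hWR : W ∉ R := fun h => hdisj W hWs (hQsp (hRQ h))
    have hWU : W ∉ U := fun h => hdisj W hWs (hBC.us h)
    have hp1 : D.Priv (S \ R) W (kk W) := by
      refine ⟨mem_sdiff.mpr ⟨hc1, hWR⟩, hc4, ?_⟩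
      intro b hb hbW
      obtain ⟨hb1, hb2⟩ := mem_sdiff.mp hb
      exact hc6 b hb1 hbW fun h => hb2 (by rw [h]; exact hπR)
    obtain ⟨j, hj, hj1, hj2, hj3⟩ := hLLR.2 W (kk W) hp1
    refine ⟨j, hj, mem_sdiff.mpr ⟨hc1, ?_⟩, hj2, ?_⟩
    · rw [mem_union]
      rintro (h | h)
      · exact hWR h
      · exact hWU h
    · intro b hb hbW
      obtain ⟨hb1, hb2⟩ := mem_sdiff.mp hb
      exact hj3 b (mem_sdiff.mpr ⟨hb1, fun h => hb2 (mem_union_left _ h)⟩) hbW)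
  have hRRh : R ⊆ Rh := fun r hr => hX1 (mem_union_left _ hr)
  have hURh : U ⊆ Rh := fun r hr => hX1 (mem_union_right _ hr)
  have hvd : D.Vd S Rh q f := hX6 (hRne.mono hRRh)
  have hXclo : ∀ W ∈ D.sm S t, ∀ j, j ≠ kk W → D.Priv (S \ Rh) W j → π W ∈ Rh := by
    intro W hW j hj hpr
    obtain ⟨ha, -⟩ := hRAY ι T D S Rh q f hvd.2.1 hvd.1
    have hlW := ha W j hpr
    obtain ⟨c, hc⟩ : ∃ c : ℚ, c = ∑ r ∈ Rh, (D.x j r : ℚ) * q r := ⟨_, rfl⟩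
    rw [← hc] at hlW
    have hc0 : 0 ≤ c := by
      rw [hc]
      refine Finset.sum_nonneg fun r hr => mul_nonneg (Nat.cast_nonneg _) ?_
      exact (hq r (hX2 hr)).1.le
    have hc1 : c ≠ 0 := by
      intro h0
      have h1 := hI4 l₁ hl₁ ρ₀ hρ₀
      have h2 := hlW (l₁ + ρ₀) h1
      have h3 := hlW l₁ hl₁
      rw [Pi.add_apply, h0] at h2
      rw [h0] at h3
      have h4 : ρ₀ W = 0 := by linarith
      unfold Dat.sm at hW
      obtain ⟨-, c', hc', h5⟩ := mem_filter.mp hW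
      rw [h5 ρ₀ hρ₀, neg_eq_zero] at h4
      rcases mul_eq_zero.mp h4 with h6 | h6
      · linarith
      · exact hρt h6
    have hcpos : 0 < c := lt_of_le_of_ne hc0 hc1.symm
    exact hX3 W ((hWcm W).mpr ⟨hW, hπQ W hW c hcpos hlW⟩) j hj hpr
  refine ⟨Q, Rh, q, hray, hQmax, hQsp, hRRh, hURh, hX2, hpq, hvd, hXclo, ?_⟩
  intro u hu
  obtain ⟨X, hY1, hY2, -, hY4, -, hY6, hY7⟩ := hclo {u} (singleton_subset_iff.mpr (hUQ hu)) (by
    intro W hW hπ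
    rw [mem_singleton] at hπ
    exact absurd (by rw [hπ]; exact hu) (hmaps W ((hWcm W).mp hW).1).2)
  have huX : u ∈ X := hY1 (mem_singleton_self u)
  refine ⟨X, hY4 Rh hX2 (singleton_subset_iff.mpr (hURh hu)) hX3, huX, hY6 ⟨u, huX⟩, ?_⟩
  intro x hx
  refine hY7 (q u) (hq u (hUQ hu)).1 ?_ x hx
  intro y hy
  rw [mem_singleton] at hy
  rw [hy]

end Pool.Agent.KTB.H81
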